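import Pool.Agent.H38.H3.Red
import Pool.Agent.H96.H3.Pairs

/-!
Pairs of coprime pairs `(a, b)`, `(c, d)` with `a c ≤ Z`: at least `c Z² log Z`.
-/

set_option autoImplicit false

namespace Pool.Agent.H51.M3

open Pool.Agent.H38.H3 (P)

theorem mem_P {R : ℕ} {p : ℕ × ℕ} : p ∈ P R ↔
    (1 ≤ p.1 ∧ p.1 ≤ R ∧ 1 ≤ p.2) ∧ p.2 < p.1 ∧ 2 * p.1 ≤ 3 * p.2 ∧ Nat.Coprime p.1 p.2 := by
  rw [P, Finset.mem_filter, Finset.mem_product, Finset.mem_Icc, Finset.mem_Icc]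
  constructor
  · rintro ⟨⟨⟨h1, h2⟩, h3, h4⟩, h5⟩
    exact ⟨⟨h1, h2, h3⟩, h5⟩
  · rintro ⟨⟨h1, h2, h3⟩, h5⟩
    exact ⟨⟨⟨h1, h2⟩, h3, by omega⟩, h5⟩

/-- the differences of `1 / n²` -/
noncomputable def df (n : ℕ) : ℝ := 1 / (n : ℝ) ^ 2 - 1 / ((n : ℝ) + 1) ^ 2

theorem df_sum {k M : ℕ} (hkM : k ≤ M) :
    ∑ n ∈ Finset.Icc k M, df n = 1 / (k : ℝ) ^ 2 - 1 / ((M : ℝ) + 1) ^ 2 := by
  induction M, hkM using Nat.le_induction with
  | base => rw [Finset.Icc_self, Finset.sum_singleton, df]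
  | succ M hM ih =>
    rw [Finset.sum_Icc_succ_top (by omega), ih, df]
    push_cast
    ring

theorem df_ge {n : ℕ} (hn : 1 ≤ n) : 1 / ((n : ℝ) + 1) ≤ (n : ℝ) ^ 2 * df n := by
  have h0 : (0 : ℝ) < n := by exact_mod_cast hn
  have h1 : (n : ℝ) ^ 2 * df n = (2 * n + 1) / ((n : ℝ) + 1) ^ 2 := by
    rw [df]
    field_simp
    ring
  rw [h1, div_le_div_iff₀ (by positivity) (by positivity)]
  nlinarith

theorem df_nonneg {n : ℕ} (hn : 1 ≤ n) : 0 ≤ df n := by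
  have h0 : (0 : ℝ) < n := by exact_mod_cast hn
  have h1 := df_ge hn
  have h2 : 0 ≤ (n : ℝ) ^ 2 * df n := le_trans (by positivity) h1
  exact nonneg_of_mul_nonneg_right h2 (by positivity)

theorem harm {R M : ℕ} (hRM : R ≤ M) :
    Real.log (M + 2) - Real.log (R + 1) ≤ ∑ n ∈ Finset.Icc R M, 1 / ((n : ℝ) + 1) := by
  have step : ∀ n : ℕ, Real.log ((n : ℝ) + 2) - Real.log (n + 1) ≤ 1 / ((n : ℝ) + 1) := by
    intro n
    have h1 : (0 : ℝ) < (n : ℝ) + 1 := by positivity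
    rw [← Real.log_div (by positivity) (by positivity)]
    have h2 : ((n : ℝ) + 2) / ((n : ℝ) + 1) - 1 = 1 / ((n : ℝ) + 1) := by
      field_simp
      ring
    rw [← h2]
    exact Real.log_le_sub_one_of_pos (by positivity)
  induction M, hRM using Nat.le_induction with
  | base =>
    rw [Finset.Icc_self, Finset.sum_singleton]
    exact step R
  | succ M hM ih =>
    rw [Finset.sum_Icc_succ_top (by omega)]
    have h := step (M + 1)
    push_cast at h ⊢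
    have e1 : (M : ℝ) + 1 + 1 = M + 2 := by ring
    rw [e1] at h ⊢
    linarith

/-- the sum of `1 / a²` over the coprime pairs -/
theorem sum_inv (c : ℝ) (hc : 0 < c) (R : ℕ) (hR : 1 ≤ R)
    (hP : ∀ n : ℕ, R ≤ n → c * (n : ℝ) ^ 2 ≤ ((P n).card : ℝ)) {M : ℕ} (hM : R ≤ M) :
    c * (Real.log (M + 2) - Real.log (R + 1)) ≤ ∑ p ∈ P M, 1 / (p.1 : ℝ) ^ 2 := by
  have h1 : ∑ p ∈ P M, ∑ n ∈ Finset.Icc p.1 M, df n ≤ ∑ p ∈ P M, 1 / (p.1 : ℝ) ^ 2 := by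
    refine Finset.sum_le_sum fun p hp => ?_
    rw [df_sum (mem_P.1 hp).1.2.1]
    have : 0 ≤ 1 / ((M : ℝ) + 1) ^ 2 := by positivity
    linarith
  have h2 : ∑ p ∈ P M, ∑ n ∈ Finset.Icc p.1 M, df n =
      ∑ n ∈ Finset.Icc 1 M, ∑ _p ∈ P n, df n := by
    refine Finset.sum_comm' fun p n => ?_
    rw [mem_P, mem_P, Finset.mem_Icc, Finset.mem_Icc]
    constructor
    · rintro ⟨⟨⟨a1, a2, a3⟩, a4⟩, a5, a6⟩
      exact ⟨⟨⟨a1, a5, a3⟩, a4⟩, a1.trans a5, a6⟩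
    · rintro ⟨⟨⟨a1, a5, a3⟩, a4⟩, a7, a6⟩
      exact ⟨⟨⟨a1, a5.trans a6, a3⟩, a4⟩, a5, a6⟩
  have h3 : ∑ n ∈ Finset.Icc R M, c * (1 / ((n : ℝ) + 1)) ≤
      ∑ n ∈ Finset.Icc 1 M, ∑ _p ∈ P n, df n := by
    calc ∑ n ∈ Finset.Icc R M, c * (1 / ((n : ℝ) + 1)) ≤
        ∑ n ∈ Finset.Icc R M, ∑ _p ∈ P n, df n := by
          refine Finset.sum_le_sum fun n hn => ?_
          rw [Finset.mem_Icc] at hn
          rw [Finset.sum_const, nsmul_eq_mul]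
          have k1 := hP n hn.1
          have k2 := df_ge (hR.trans hn.1)
          have k3 := df_nonneg (hR.trans hn.1)
          calc c * (1 / ((n : ℝ) + 1)) ≤ c * ((n : ℝ) ^ 2 * df n) :=
                mul_le_mul_of_nonneg_left k2 hc.le
            _ = (c * (n : ℝ) ^ 2) * df n := by ring
            _ ≤ ((P n).card : ℝ) * df n := mul_le_mul_of_nonneg_right k1 k3
      _ ≤ _ := by
          refine Finset.sum_le_sum_of_subset_of_nonneg
            (Finset.Icc_subset_Icc_left hR) fun n hn _ => ?_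
          rw [Finset.mem_Icc] at hn
          exact Finset.sum_nonneg fun _ _ => df_nonneg hn.1
  rw [← Finset.mul_sum] at h3
  have h4 := mul_le_mul_of_nonneg_left (harm hM) hc.le
  linarith

/-- the two coprime pairs -/
def W (Z : ℕ) : Finset (Σ _ : ℕ × ℕ, ℕ × ℕ) := (P Z).sigma fun p => P (Z / p.1)

theorem card_W : ∃ c : ℝ, 0 < c ∧ ∃ Z₀ : ℕ, ∀ Z : ℕ, Z₀ ≤ Z →
    c * ((Z : ℝ) ^ 2 * Real.log Z) ≤ ((W Z).card : ℝ) := by
  obtain ⟨c, hc, R₀, hR₀⟩ := Pool.Agent.H96.H3.pairs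
  obtain ⟨R, hR⟩ : ∃ R : ℕ, R = max R₀ 1 := ⟨_, rfl⟩
  have hR1 : 1 ≤ R := hR ▸ le_max_right _ _
  have hP : ∀ n : ℕ, R ≤ n → c * (n : ℝ) ^ 2 ≤ ((P n).card : ℝ) := fun n hn =>
    hR₀ n ((hR ▸ le_max_left _ _ : R₀ ≤ R).trans hn)
  refine ⟨c ^ 2 / 8, by positivity, (R * (R + 1)) ^ 2, fun Z hZ => ?_⟩
  have hRR : R ≤ R * R := Nat.le_mul_self R
  have hZR : R * R ≤ Z := by
    refine le_trans ?_ hZ
    rw [sq]
    exact Nat.mul_le_mul (Nat.le_mul_of_pos_right _ (by omega))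
      (Nat.le_mul_of_pos_right _ (by omega))
  obtain ⟨M, hM⟩ : ∃ M : ℕ, M = Z / R := ⟨_, rfl⟩
  have hRM : R ≤ M := by
    rw [hM, Nat.le_div_iff_mul_le (by omega)]
    exact hZR
  have hMZ : M ≤ Z := hM ▸ Nat.div_le_self _ _
  have hZpos : (0 : ℝ) < Z := by
    have : 0 < Z := by
      have : 0 < R * R := Nat.mul_pos (by omega) (by omega)
      omega
    exact_mod_cast this
  have hRpos : (0 : ℝ) < R := by exact_mod_cast hR1
  have h1 := sum_inv c hc R hR1 hP hRM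
  have h2 : c / 4 * (Z : ℝ) ^ 2 * ∑ p ∈ P M, 1 / (p.1 : ℝ) ^ 2 ≤ ((W Z).card : ℝ) := by
    rw [W, Finset.card_sigma, Finset.mul_sum]
    push_cast
    have hsub : P M ⊆ P Z := by
      intro p hp
      rw [mem_P] at hp ⊢
      exact ⟨⟨hp.1.1, hp.1.2.1.trans hMZ, hp.1.2.2⟩, hp.2⟩
    refine le_trans ?_ (Finset.sum_le_sum_of_subset_of_nonneg hsub fun _ _ _ => Nat.cast_nonneg _)
    refine Finset.sum_le_sum fun p hp => ?_
    rw [mem_P] at hp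
    have hp1 : 0 < p.1 := hp.1.1
    have hRp : R ≤ Z / p.1 := by
      rw [Nat.le_div_iff_mul_le hp1]
      have := hp.1.2.1
      rw [hM, Nat.le_div_iff_mul_le (by omega)] at this
      rw [mul_comm]
      exact this
    refine le_trans ?_ (hP _ hRp)
    have hp0 : (0 : ℝ) < p.1 := by exact_mod_cast hp1
    have hq : (Z : ℝ) / p.1 ≤ 2 * ((Z / p.1 : ℕ) : ℝ) := by
      have e1 : Z < (Z / p.1 + 1) * p.1 := by
        have := Nat.lt_div_mul_add hp1 (a := Z)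
        rw [Nat.add_mul, one_mul]
        exact this
      have e2 : (Z : ℝ) < (((Z / p.1 : ℕ) : ℝ) + 1) * p.1 := by exact_mod_cast e1
      rw [div_le_iff₀ hp0]
      have e3 : (1 : ℝ) ≤ ((Z / p.1 : ℕ) : ℝ) := by exact_mod_cast hR1.trans hRp
      nlinarith
    have hq2 : ((Z : ℝ) / p.1) ^ 2 ≤ (2 * ((Z / p.1 : ℕ) : ℝ)) ^ 2 :=
      pow_le_pow_left₀ (by positivity) hq 2
    calc c / 4 * (Z : ℝ) ^ 2 * (1 / (p.1 : ℝ) ^ 2) = c / 4 * ((Z : ℝ) / p.1) ^ 2 := by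
          field_simp
      _ ≤ c / 4 * (2 * ((Z / p.1 : ℕ) : ℝ)) ^ 2 := by gcongr
      _ = c * ((Z / p.1 : ℕ) : ℝ) ^ 2 := by ring
  refine le_trans ?_ h2
  have h3 : Real.log Z - Real.log R ≤ Real.log (M + 2) := by
    rw [← Real.log_div hZpos.ne' hRpos.ne']
    refine Real.log_le_log (by positivity) ?_
    rw [div_le_iff₀ hRpos]
    have e1 : Z < (Z / R + 1) * R := by
      have := Nat.lt_div_mul_add (by omega : 0 < R) (a := Z)
      rw [Nat.add_mul, one_mul]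
      exact this
    rw [← hM] at e1
    have e2 : (Z : ℝ) < ((M : ℝ) + 1) * R := by exact_mod_cast e1
    nlinarith
  have h4 : 2 * (Real.log R + Real.log (R + 1)) ≤ Real.log Z := by
    have e1 : ((R : ℝ) * (R + 1)) ^ 2 ≤ Z := by exact_mod_cast hZ
    have e2 := Real.log_le_log (by positivity) e1
    rw [Real.log_pow, Real.log_mul (by positivity) (by positivity)] at e2
    exact_mod_cast e2
  have h5 : c * (Real.log Z / 2) ≤ ∑ p ∈ P M, 1 / (p.1 : ℝ) ^ 2 := by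
    refine le_trans ?_ h1
    refine mul_le_mul_of_nonneg_left ?_ hc.le
    linarith
  calc c ^ 2 / 8 * ((Z : ℝ) ^ 2 * Real.log Z) =
      c / 4 * (Z : ℝ) ^ 2 * (c * (Real.log Z / 2)) := by ring
    _ ≤ _ := mul_le_mul_of_nonneg_left h5 (by positivity)

end Pool.Agent.H51.M3
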