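import Mathlib

/-!
# A two-parameter family of Hilbert cubes of dimension 3 in the squares

Eight forms of bidegree (4, 4) with positive coefficients whose squares are
`a₀ + ∑_{i ∈ I} a_i` (`X0 : ∅`, `X1 : {1}`, `X2 : {2}`, `X3 : {1,2}`, `X4 : {3}`, `X5 : {1,3}`,
`X6 : {2,3}`, `X7 : {1,2,3}`), `0 < a₁ < a₂ < a₃`; the two parameters are recovered by `Es`, `Eu`.
-/

set_option autoImplicit false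

namespace Pool.Agent.H51.M3

def X0 (a b c d : ℤ) : ℤ :=
    57498 * b ^ 4 * d ^ 4 + 122470 * b ^ 4 * c * d ^ 3 + 96258 * b ^ 4 * c ^ 2 * d ^ 2 + 32916 * b ^ 4 * c ^ 3 * d + 4098 * b ^ 4 * c ^ 4 +
    99345 * a * b ^ 3 * d ^ 4 + 214227 * a * b ^ 3 * c * d ^ 3 + 170887 * a * b ^ 3 * c ^ 2 * d ^ 2 + 59527 * a * b ^ 3 * c ^ 3 * d + 7594 * a * b ^ 3 * c ^ 4 +
    64490 * a ^ 2 * b ^ 2 * d ^ 4 + 140734 * a ^ 2 * b ^ 2 * c * d ^ 3 + 113856 * a ^ 2 * b ^ 2 * c ^ 2 * d ^ 2 + 40350 * a ^ 2 * b ^ 2 * c ^ 3 * d + 5262 * a ^ 2 * b ^ 2 * c ^ 4 +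
    18610 * a ^ 3 * b * d ^ 4 + 41074 * a ^ 3 * b * c * d ^ 3 + 33670 * a ^ 3 * b * c ^ 2 * d ^ 2 + 12122 * a ^ 3 * b * c ^ 3 * d + 1612 * a ^ 3 * b * c ^ 4 +
    2012 * a ^ 4 * d ^ 4 + 4488 * a ^ 4 * c * d ^ 3 + 3724 * a ^ 4 * c ^ 2 * d ^ 2 + 1360 * a ^ 4 * c ^ 3 * d + 184 * a ^ 4 * c ^ 4

def X1 (a b c d : ℤ) : ℤ :=
    57498 * b ^ 4 * d ^ 4 + 130647 * b ^ 4 * c * d ^ 3 + 111443 * b ^ 4 * c ^ 2 * d ^ 2 + 42327 * b ^ 4 * c ^ 3 * d + 6045 * b ^ 4 * c ^ 4 +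
    107522 * a * b ^ 3 * d ^ 4 + 246935 * a * b ^ 3 * c * d ^ 3 + 212899 * a * b ^ 3 * c ^ 2 * d ^ 2 + 81715 * a * b ^ 3 * c ^ 3 * d + 11789 * a * b ^ 3 * c ^ 4 +
    73836 * a ^ 2 * b ^ 2 * d ^ 4 + 171068 * a ^ 2 * b ^ 2 * c * d ^ 3 + 148782 * a ^ 2 * b ^ 2 * c ^ 2 * d ^ 2 + 57596 * a ^ 2 * b ^ 2 * c ^ 3 * d + 8378 * a ^ 2 * b ^ 2 * c ^ 4 +
    22182 * a ^ 3 * b * d ^ 4 + 51782 * a ^ 3 * b * c * d ^ 3 + 45374 * a ^ 3 * b * c ^ 2 * d ^ 2 + 17694 * a ^ 3 * b * c ^ 3 * d + 2592 * a ^ 3 * b * c ^ 4 +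
    2468 * a ^ 4 * d ^ 4 + 5800 * a ^ 4 * c * d ^ 3 + 5116 * a ^ 4 * c ^ 2 * d ^ 2 + 2008 * a ^ 4 * c ^ 3 * d + 296 * a ^ 4 * c ^ 4

def X2 (a b c d : ℤ) : ℤ :=
    106782 * b ^ 4 * d ^ 4 + 249898 * b ^ 4 * c * d ^ 3 + 219612 * b ^ 4 * c ^ 2 * d ^ 2 + 85918 * b ^ 4 * c ^ 3 * d + 12630 * b ^ 4 * c ^ 4 +
    167055 * a * b ^ 3 * d ^ 4 + 391613 * a * b ^ 3 * c * d ^ 3 + 344713 * a * b ^ 3 * c ^ 2 * d ^ 2 + 135073 * a * b ^ 3 * c ^ 3 * d + 19886 * a * b ^ 3 * c ^ 4 +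
    97790 * a ^ 2 * b ^ 2 * d ^ 4 + 229534 * a ^ 2 * b ^ 2 * c * d ^ 3 + 202284 * a ^ 2 * b ^ 2 * c ^ 2 * d ^ 2 + 79350 * a ^ 2 * b ^ 2 * c ^ 3 * d + 11694 * a ^ 2 * b ^ 2 * c ^ 4 +
    25390 * a ^ 3 * b * d ^ 4 + 59646 * a ^ 3 * b * c * d ^ 3 + 52602 * a ^ 3 * b * c ^ 2 * d ^ 2 + 20646 * a ^ 3 * b * c ^ 3 * d + 3044 * a ^ 3 * b * c ^ 4 +
    2468 * a ^ 4 * d ^ 4 + 5800 * a ^ 4 * c * d ^ 3 + 5116 * a ^ 4 * c ^ 2 * d ^ 2 + 2008 * a ^ 4 * c ^ 3 * d + 296 * a ^ 4 * c ^ 4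

def X3 (a b c d : ℤ) : ℤ :=
    106782 * b ^ 4 * d ^ 4 + 254301 * b ^ 4 * c * d ^ 3 + 227085 * b ^ 4 * c ^ 2 * d ^ 2 + 90083 * b ^ 4 * c ^ 3 * d + 13389 * b ^ 4 * c ^ 4 +
    171458 * a * b ^ 3 * d ^ 4 + 409463 * a * b ^ 3 * c * d ^ 3 + 366707 * a * b ^ 3 * c ^ 2 * d ^ 2 + 145915 * a * b ^ 3 * c ^ 3 * d + 21757 * a * b ^ 3 * c ^ 4 +
    103764 * a ^ 2 * b ^ 2 * d ^ 4 + 248512 * a ^ 2 * b ^ 2 * c * d ^ 3 + 223230 * a ^ 2 * b ^ 2 * c ^ 2 * d ^ 2 + 89104 * a ^ 2 * b ^ 2 * c ^ 3 * d + 13330 * a ^ 2 * b ^ 2 * c ^ 4 +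
    28038 * a ^ 3 * b * d ^ 4 + 67350 * a ^ 3 * b * c * d ^ 3 + 60686 * a ^ 3 * b * c ^ 2 * d ^ 2 + 24302 * a ^ 3 * b * c ^ 3 * d + 3648 * a ^ 3 * b * c ^ 4 +
    2852 * a ^ 4 * d ^ 4 + 6872 * a ^ 4 * c * d ^ 3 + 6212 * a ^ 4 * c ^ 2 * d ^ 2 + 2496 * a ^ 4 * c ^ 3 * d + 376 * a ^ 4 * c ^ 4

def X4 (a b c d : ℤ) : ℤ :=
    106782 * b ^ 4 * d ^ 4 + 255670 * b ^ 4 * c * d ^ 3 + 230082 * b ^ 4 * c ^ 2 * d ^ 2 + 92244 * b ^ 4 * c ^ 3 * d + 13902 * b ^ 4 * c ^ 4 +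
    172827 * a * b ^ 3 * d ^ 4 + 414939 * a * b ^ 3 * c * d ^ 3 + 374399 * a * b ^ 3 * c ^ 2 * d ^ 2 + 150487 * a * b ^ 3 * c ^ 3 * d + 22736 * a * b ^ 3 * c ^ 4 +
    104874 * a ^ 2 * b ^ 2 * d ^ 4 + 252430 * a ^ 2 * b ^ 2 * c * d ^ 3 + 228324 * a ^ 2 * b ^ 2 * c ^ 2 * d ^ 2 + 91990 * a ^ 2 * b ^ 2 * c ^ 3 * d + 13930 * a ^ 2 * b ^ 2 * c ^ 4 +
    28312 * a ^ 3 * b * d ^ 4 + 68306 * a ^ 3 * b * c * d ^ 3 + 61922 * a ^ 3 * b * c ^ 2 * d ^ 2 + 25002 * a ^ 3 * b * c ^ 3 * d + 3794 * a ^ 3 * b * c ^ 4 +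
    2872 * a ^ 4 * d ^ 4 + 6944 * a ^ 4 * c * d ^ 3 + 6308 * a ^ 4 * c ^ 2 * d ^ 2 + 2552 * a ^ 4 * c ^ 3 * d + 388 * a ^ 4 * c ^ 4

def X5 (a b c d : ℤ) : ℤ :=
    106782 * b ^ 4 * d ^ 4 + 260073 * b ^ 4 * c * d ^ 3 + 237317 * b ^ 4 * c ^ 2 * d ^ 2 + 96153 * b ^ 4 * c ^ 3 * d + 14595 * b ^ 4 * c ^ 4 +
    177230 * a * b ^ 3 * d ^ 4 + 432313 * a * b ^ 3 * c * d ^ 3 + 395185 * a * b ^ 3 * c ^ 2 * d ^ 2 + 160437 * a * b ^ 3 * c ^ 3 * d + 24407 * a * b ^ 3 * c ^ 4 +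
    110610 * a ^ 2 * b ^ 2 * d ^ 4 + 270236 * a ^ 2 * b ^ 2 * c * d ^ 3 + 247470 * a ^ 2 * b ^ 2 * c ^ 2 * d ^ 2 + 100668 * a ^ 2 * b ^ 2 * c ^ 3 * d + 15348 * a ^ 2 * b ^ 2 * c ^ 4 +
    30740 * a ^ 3 * b * d ^ 4 + 75226 * a ^ 3 * b * c * d ^ 3 + 69014 * a ^ 3 * b * c ^ 2 * d ^ 2 + 28130 * a ^ 3 * b * c ^ 3 * d + 4298 * a ^ 3 * b * c ^ 4 +
    3208 * a ^ 4 * d ^ 4 + 7864 * a ^ 4 * c * d ^ 3 + 7228 * a ^ 4 * c ^ 2 * d ^ 2 + 2952 * a ^ 4 * c ^ 3 * d + 452 * a ^ 4 * c ^ 4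

def X6 (a b c d : ℤ) : ℤ :=
    139638 * b ^ 4 * d ^ 4 + 336182 * b ^ 4 * c * d ^ 3 + 303528 * b ^ 4 * c ^ 2 * d ^ 2 + 121802 * b ^ 4 * c ^ 3 * d + 18330 * b ^ 4 * c ^ 4 +
    219003 * a * b ^ 3 * d ^ 4 + 529579 * a * b ^ 3 * c * d ^ 3 + 480223 * a * b ^ 3 * c ^ 2 * d ^ 2 + 193535 * a * b ^ 3 * c ^ 3 * d + 29248 * a * b ^ 3 * c ^ 4 +
    128226 * a ^ 2 * b ^ 2 * d ^ 4 + 311450 * a ^ 2 * b ^ 2 * c * d ^ 3 + 283668 * a ^ 2 * b ^ 2 * c ^ 2 * d ^ 2 + 114818 * a ^ 2 * b ^ 2 * c ^ 3 * d + 17426 * a ^ 2 * b ^ 2 * c ^ 4 +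
    33208 * a ^ 3 * b * d ^ 4 + 81026 * a ^ 3 * b * c * d ^ 3 + 74130 * a ^ 3 * b * c ^ 2 * d ^ 2 + 30138 * a ^ 3 * b * c ^ 3 * d + 4594 * a ^ 3 * b * c ^ 4 +
    3208 * a ^ 4 * d ^ 4 + 7864 * a ^ 4 * c * d ^ 3 + 7228 * a ^ 4 * c ^ 2 * d ^ 2 + 2952 * a ^ 4 * c ^ 3 * d + 452 * a ^ 4 * c ^ 4

def X7 (a b c d : ℤ) : ℤ :=
    139638 * b ^ 4 * d ^ 4 + 339549 * b ^ 4 * c * d ^ 3 + 309045 * b ^ 4 * c ^ 2 * d ^ 2 + 124787 * b ^ 4 * c ^ 3 * d + 18861 * b ^ 4 * c ^ 4 +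
    222370 * a * b ^ 3 * d ^ 4 + 543047 * a * b ^ 3 * c * d ^ 3 + 496375 * a * b ^ 3 * c ^ 2 * d ^ 2 + 201283 * a * b ^ 3 * c ^ 3 * d + 30553 * a * b ^ 3 * c ^ 4 +
    132810 * a ^ 2 * b ^ 2 * d ^ 4 + 325736 * a ^ 2 * b ^ 2 * c * d ^ 3 + 299022 * a ^ 2 * b ^ 2 * c ^ 2 * d ^ 2 + 121776 * a ^ 2 * b ^ 2 * c ^ 3 * d + 18564 * a ^ 2 * b ^ 2 * c ^ 4 +
    35260 * a ^ 3 * b * d ^ 4 + 86854 * a ^ 3 * b * c * d ^ 3 + 80074 * a ^ 3 * b * c ^ 2 * d ^ 2 + 32750 * a ^ 3 * b * c ^ 3 * d + 5014 * a ^ 3 * b * c ^ 4 +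
    3512 * a ^ 4 * d ^ 4 + 8688 * a ^ 4 * c * d ^ 3 + 8044 * a ^ 4 * c ^ 2 * d ^ 2 + 3304 * a ^ 4 * c ^ 3 * d + 508 * a ^ 4 * c ^ 4

theorem e3 (a b c d : ℤ) : X3 a b c d ^ 2 + X0 a b c d ^ 2 = X1 a b c d ^ 2 + X2 a b c d ^ 2 := by
  simp only [X0, X1, X2, X3]
  ring

theorem e5 (a b c d : ℤ) : X5 a b c d ^ 2 + X0 a b c d ^ 2 = X1 a b c d ^ 2 + X4 a b c d ^ 2 := by
  simp only [X0, X1, X4, X5]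
  ring

theorem e6 (a b c d : ℤ) : X6 a b c d ^ 2 + X0 a b c d ^ 2 = X2 a b c d ^ 2 + X4 a b c d ^ 2 := by
  simp only [X0, X2, X4, X6]
  ring

theorem e7 (a b c d : ℤ) :
    X7 a b c d ^ 2 + X0 a b c d ^ 2 = X1 a b c d ^ 2 + X6 a b c d ^ 2 := by
  simp only [X0, X1, X6, X7]
  ring

theorem Es (a b c d : ℤ) : (a + 3 * b) * (X5 a b c d + X1 a b c d) =
    (a + 2 * b) * (X6 a b c d + X2 a b c d) := by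
  simp only [X1, X2, X5, X6]
  ring

theorem Eu (a b c d : ℤ) : (c + 2 * d) * (X2 a b c d - X0 a b c d) =
    (2 * c + 3 * d) * (X7 a b c d - X5 a b c d) := by
  simp only [X0, X2, X5, X7]
  ring

theorem pos0 {a b c d : ℤ} (ha : 0 < a) (hb : 0 < b) (hc : 0 < c) (hd : 0 < d) :
    0 < X0 a b c d := by
  simp only [X0]
  positivity

theorem lt01 {a b c d : ℤ} (ha : 0 < a) (hb : 0 < b) (hc : 0 < c) (hd : 0 < d) :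
    X0 a b c d < X1 a b c d := by
  have h : 0 < 8177 * b ^ 4 * c * d ^ 3 + 15185 * b ^ 4 * c ^ 2 * d ^ 2 + 9411 * b ^ 4 * c ^ 3 * d + 1947 * b ^ 4 * c ^ 4 +
      8177 * a * b ^ 3 * d ^ 4 + 32708 * a * b ^ 3 * c * d ^ 3 + 42012 * a * b ^ 3 * c ^ 2 * d ^ 2 + 22188 * a * b ^ 3 * c ^ 3 * d + 4195 * a * b ^ 3 * c ^ 4 +
      9346 * a ^ 2 * b ^ 2 * d ^ 4 + 30334 * a ^ 2 * b ^ 2 * c * d ^ 3 + 34926 * a ^ 2 * b ^ 2 * c ^ 2 * d ^ 2 + 17246 * a ^ 2 * b ^ 2 * c ^ 3 * d + 3116 * a ^ 2 * b ^ 2 * c ^ 4 +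
      3572 * a ^ 3 * b * d ^ 4 + 10708 * a ^ 3 * b * c * d ^ 3 + 11704 * a ^ 3 * b * c ^ 2 * d ^ 2 + 5572 * a ^ 3 * b * c ^ 3 * d + 980 * a ^ 3 * b * c ^ 4 +
      456 * a ^ 4 * d ^ 4 + 1312 * a ^ 4 * c * d ^ 3 + 1392 * a ^ 4 * c ^ 2 * d ^ 2 + 648 * a ^ 4 * c ^ 3 * d + 112 * a ^ 4 * c ^ 4 := by positivity
  simp only [X0, X1]
  linarith

theorem lt12 {a b c d : ℤ} (ha : 0 < a) (hb : 0 < b) (hc : 0 < c) (hd : 0 < d) :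
    X1 a b c d < X2 a b c d := by
  have h : 0 < 49284 * b ^ 4 * d ^ 4 + 119251 * b ^ 4 * c * d ^ 3 + 108169 * b ^ 4 * c ^ 2 * d ^ 2 + 43591 * b ^ 4 * c ^ 3 * d + 6585 * b ^ 4 * c ^ 4 +
      59533 * a * b ^ 3 * d ^ 4 + 144678 * a * b ^ 3 * c * d ^ 3 + 131814 * a * b ^ 3 * c ^ 2 * d ^ 2 + 53358 * a * b ^ 3 * c ^ 3 * d + 8097 * a * b ^ 3 * c ^ 4 +
      23954 * a ^ 2 * b ^ 2 * d ^ 4 + 58466 * a ^ 2 * b ^ 2 * c * d ^ 3 + 53502 * a ^ 2 * b ^ 2 * c ^ 2 * d ^ 2 + 21754 * a ^ 2 * b ^ 2 * c ^ 3 * d + 3316 * a ^ 2 * b ^ 2 * c ^ 4 +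
      3208 * a ^ 3 * b * d ^ 4 + 7864 * a ^ 3 * b * c * d ^ 3 + 7228 * a ^ 3 * b * c ^ 2 * d ^ 2 + 2952 * a ^ 3 * b * c ^ 3 * d + 452 * a ^ 3 * b * c ^ 4 := by positivity
  simp only [X1, X2]
  linarith

theorem lt24 {a b c d : ℤ} (ha : 0 < a) (hb : 0 < b) (hc : 0 < c) (hd : 0 < d) :
    X2 a b c d < X4 a b c d := by
  have h : 0 < 5772 * b ^ 4 * c * d ^ 3 + 10470 * b ^ 4 * c ^ 2 * d ^ 2 + 6326 * b ^ 4 * c ^ 3 * d + 1272 * b ^ 4 * c ^ 4 +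
      5772 * a * b ^ 3 * d ^ 4 + 23326 * a * b ^ 3 * c * d ^ 3 + 29686 * a * b ^ 3 * c ^ 2 * d ^ 2 + 15414 * a * b ^ 3 * c ^ 3 * d + 2850 * a * b ^ 3 * c ^ 4 +
      7084 * a ^ 2 * b ^ 2 * d ^ 4 + 22896 * a ^ 2 * b ^ 2 * c * d ^ 3 + 26040 * a ^ 2 * b ^ 2 * c ^ 2 * d ^ 2 + 12640 * a ^ 2 * b ^ 2 * c ^ 3 * d + 2236 * a ^ 2 * b ^ 2 * c ^ 4 +
      2922 * a ^ 3 * b * d ^ 4 + 8660 * a ^ 3 * b * c * d ^ 3 + 9320 * a ^ 3 * b * c ^ 2 * d ^ 2 + 4356 * a ^ 3 * b * c ^ 3 * d + 750 * a ^ 3 * b * c ^ 4 +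
      404 * a ^ 4 * d ^ 4 + 1144 * a ^ 4 * c * d ^ 3 + 1192 * a ^ 4 * c ^ 2 * d ^ 2 + 544 * a ^ 4 * c ^ 3 * d + 92 * a ^ 4 * c ^ 4 := by positivity
  simp only [X2, X4]
  linarith

theorem lt57 {a b c d : ℤ} (ha : 0 < a) (hb : 0 < b) (hc : 0 < c) (hd : 0 < d) :
    X5 a b c d < X7 a b c d := by
  have h : 0 < 32856 * b ^ 4 * d ^ 4 + 79476 * b ^ 4 * c * d ^ 3 + 71728 * b ^ 4 * c ^ 2 * d ^ 2 + 28634 * b ^ 4 * c ^ 3 * d + 4266 * b ^ 4 * c ^ 4 +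
      45140 * a * b ^ 3 * d ^ 4 + 110734 * a * b ^ 3 * c * d ^ 3 + 101190 * a * b ^ 3 * c ^ 2 * d ^ 2 + 40846 * a * b ^ 3 * c ^ 3 * d + 6146 * a * b ^ 3 * c ^ 4 +
      22200 * a ^ 2 * b ^ 2 * d ^ 4 + 55500 * a ^ 2 * b ^ 2 * c * d ^ 3 + 51552 * a ^ 2 * b ^ 2 * c ^ 2 * d ^ 2 + 21108 * a ^ 2 * b ^ 2 * c ^ 3 * d + 3216 * a ^ 2 * b ^ 2 * c ^ 4 +
      4520 * a ^ 3 * b * d ^ 4 + 11628 * a ^ 3 * b * c * d ^ 3 + 11060 * a ^ 3 * b * c ^ 2 * d ^ 2 + 4620 * a ^ 3 * b * c ^ 3 * d + 716 * a ^ 3 * b * c ^ 4 +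
      304 * a ^ 4 * d ^ 4 + 824 * a ^ 4 * c * d ^ 3 + 816 * a ^ 4 * c ^ 2 * d ^ 2 + 352 * a ^ 4 * c ^ 3 * d + 56 * a ^ 4 * c ^ 4 := by positivity
  simp only [X5, X7]
  linarith

theorem pos3 {a b c d : ℤ} (ha : 0 < a) (hb : 0 < b) (hc : 0 < c) (hd : 0 < d) :
    0 < X3 a b c d := by
  simp only [X3]
  positivity

theorem pos5 {a b c d : ℤ} (ha : 0 < a) (hb : 0 < b) (hc : 0 < c) (hd : 0 < d) :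
    0 < X5 a b c d := by
  simp only [X5]
  positivity

theorem pos6 {a b c d : ℤ} (ha : 0 < a) (hb : 0 < b) (hc : 0 < c) (hd : 0 < d) :
    0 < X6 a b c d := by
  simp only [X6]
  positivity

theorem pos7 {a b c d : ℤ} (ha : 0 < a) (hb : 0 < b) (hc : 0 < c) (hd : 0 < d) :
    0 < X7 a b c d := by
  simp only [X7]
  positivity

end Pool.Agent.H51.M3
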