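import Pool.Agent.H51.M3.Fam

/-!
The size of the forms.
-/

set_option autoImplicit false

namespace Pool.Agent.H51.M3

theorem size {a b c d : ℤ} (hb : 0 < b) (hd : 0 < d) (hba : b ≤ a) (hdc : d ≤ c) :
    X7 a b c d ≤ 3587424 * (a * c) ^ 4 := by
  have ha : 0 < a := hb.trans_le hba
  have hc : 0 < c := hd.trans_le hdc
  calc X7 a b c d ≤ X7 a a c c := by
        simp only [X7]
        gcongr
    _ = 3587424 * (a * c) ^ 4 := by
        simp only [X7]
        ring

end Pool.Agent.H51.M3
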