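import Pool.Agent.H51.M3.Red
import Pool.Agent.H51.M3.Size
import Pool.Agent.H51.M3.Cnt

/-!
`H_3(N) ≥ c N^(1/4) log N`.
-/

set_option autoImplicit false

namespace Pool.Agent.H51.M3

open Pool.Agent.H38.H3 (P)

theorem card_le {N Z : ℕ} (h : 3587424 ^ 2 * Z ^ 8 ≤ N) : (W Z).card ≤ (T N).ncard := by
  have facts : ∀ w : (Σ _ : ℕ × ℕ, ℕ × ℕ), w ∈ W Z → w.1 ∈ P Z ∧ w.2 ∈ P (Z / w.1.1) := by
    intro w hw
    rwa [W, Finset.mem_sigma] at hw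
  have key : ∀ w : (Σ _ : ℕ × ℕ, ℕ × ℕ), w ∈ W Z → ∃ q : ℤ × (Fin 3 → ℤ), q ∈ T N ∧
      ∃ G : ℤ, 0 < G ∧ Rel G w.1.1 w.1.2 w.2.1 w.2.2 q := by
    intro w hw
    obtain ⟨h1, h2⟩ := facts w hw
    rw [mem_P] at h1 h2
    obtain ⟨⟨a1, a2, a3⟩, a4, a5, a6⟩ := h1
    obtain ⟨⟨b1, b2, b3⟩, b4, b5, b6⟩ := h2
    have ha : (0 : ℤ) < w.1.1 := by exact_mod_cast a1
    have hb : (0 : ℤ) < w.1.2 := by exact_mod_cast a3
    have hc : (0 : ℤ) < w.2.1 := by exact_mod_cast b1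
    have hd : (0 : ℤ) < w.2.2 := by exact_mod_cast b3
    refine exists_cube ha hb hc hd ?_
    have hs := size hb hd (a := (w.1.1 : ℤ)) (c := (w.2.1 : ℤ)) (by exact_mod_cast a4.le)
      (by exact_mod_cast b4.le)
    have hp := pos7 ha hb hc hd
    have hac : w.1.1 * w.2.1 ≤ Z := by
      rw [Nat.le_div_iff_mul_le a1] at b2
      rw [mul_comm]
      exact b2
    have hac' : ((w.1.1 : ℤ) * w.2.1) ≤ Z := by exact_mod_cast hac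
    have h8 : ((3587424 : ℤ) ^ 2 * (Z : ℤ) ^ 8) ≤ N := by exact_mod_cast h
    calc X7 w.1.1 w.1.2 w.2.1 w.2.2 ^ 2 ≤ (3587424 * ((w.1.1 : ℤ) * w.2.1) ^ 4) ^ 2 :=
          pow_le_pow_left₀ hp.le hs 2
      _ ≤ (3587424 * (Z : ℤ) ^ 4) ^ 2 := by gcongr
      _ = 3587424 ^ 2 * (Z : ℤ) ^ 8 := by ring
      _ ≤ N := h8
  choose! f hf hG using key
  rw [← Set.ncard_coe_finset]
  refine Set.ncard_le_ncard_of_injOn f (fun p hp => hf p hp) ?_ (finite_T N)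
  intro w hw v hv hwv
  have hw' : w ∈ W Z := hw
  have hv' : v ∈ W Z := hv
  obtain ⟨G, g0, g1⟩ := hG w hw'
  obtain ⟨G', g0', g1'⟩ := hG v hv'
  obtain ⟨h1, h2⟩ := facts w hw'
  obtain ⟨k1, k2⟩ := facts v hv'
  rw [mem_P] at h1 h2 k1 k2
  obtain ⟨⟨a1, a2, a3⟩, a4, a5, a6⟩ := h1
  obtain ⟨⟨b1, b2, b3⟩, b4, b5, b6⟩ := h2
  obtain ⟨⟨c1, c2, c3⟩, c4, c5, c6⟩ := k1
  obtain ⟨⟨d1, d2, d3⟩, d4, d5, d6⟩ := k2
  rw [← hwv] at g1'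
  obtain ⟨e1, e2⟩ := inj (by exact_mod_cast a1) (by exact_mod_cast a3) (by exact_mod_cast b1)
    (by exact_mod_cast b3) (by exact_mod_cast c1) (by exact_mod_cast c3)
    (by exact_mod_cast d1) (by exact_mod_cast d3) g0 g0' g1 g1'
  have aux : ∀ p q : ℕ × ℕ, 1 ≤ p.1 → Nat.Coprime p.1 p.2 → Nat.Coprime q.1 q.2 →
      (p.1 : ℤ) * q.2 = q.1 * p.2 → p = q := by
    intro p q hp hpc hqc hpq
    have hr' : p.1 * q.2 = q.1 * p.2 := by exact_mod_cast hpq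
    have d1 : p.1 ∣ q.1 := hpc.dvd_of_dvd_mul_right ⟨q.2, hr'.symm⟩
    have d2 : q.1 ∣ p.1 := hqc.dvd_of_dvd_mul_right ⟨p.2, hr'⟩
    have e : p.1 = q.1 := Nat.dvd_antisymm d1 d2
    have e' : p.2 = q.2 := by
      rw [e] at hr'
      exact (Nat.eq_of_mul_eq_mul_left (by omega) hr').symm
    exact Prod.ext e e'
  have q1 : w.1 = v.1 := aux _ _ a1 a6 c6 e1
  have q2 : w.2 = v.2 := aux _ _ b1 b6 d6 e2
  exact Sigma.ext q1 (heq_of_eq q2)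

theorem main : ∃ c : ℝ, 0 < c ∧ ∃ N₀ : ℕ, ∀ N : ℕ, N₀ ≤ N →
    c * ((N : ℝ) ^ (1 / 4 : ℝ) * Real.log N) ≤ ((T N).ncard : ℝ) := by
  obtain ⟨c, hc, Z₀, hZ⟩ := card_W
  refine ⟨c / 160000, by positivity, (10000 * (Z₀ + 1)) ^ 8, fun N hN => ?_⟩
  obtain ⟨y, hy⟩ : ∃ y : ℝ, y = (N : ℝ) ^ (1 / 8 : ℝ) := ⟨_, rfl⟩
  have hN0 : (0 : ℝ) ≤ N := Nat.cast_nonneg N
  have hy8 : y ^ 8 = N := by
    rw [hy, ← Real.rpow_natCast, ← Real.rpow_mul hN0]; norm_num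
  have hy4 : (N : ℝ) ^ (1 / 4 : ℝ) = y ^ 2 := by
    rw [hy, ← Real.rpow_natCast, ← Real.rpow_mul hN0]; norm_num
  have hy0 : 0 ≤ y := hy ▸ Real.rpow_nonneg hN0 _
  have hZ0 : (0 : ℝ) ≤ Z₀ := Nat.cast_nonneg _
  have hyZ : 10000 * ((Z₀ : ℝ) + 1) ≤ y := by
    have h1 : (10000 * ((Z₀ : ℝ) + 1)) ^ 8 ≤ y ^ 8 := by
      rw [hy8]; exact_mod_cast hN
    exact le_of_pow_le_pow_left₀ (by norm_num) hy0 h1
  have hy1 : 10000 ≤ y := by linarith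
  obtain ⟨Z, hZd⟩ : ∃ Z : ℕ, Z = ⌊y / 50⌋₊ := ⟨_, rfl⟩
  have hZ1 : (Z : ℝ) ≤ y / 50 := hZd ▸ Nat.floor_le (by positivity)
  have hZ2 : y / 50 < Z + 1 := hZd ▸ Nat.lt_floor_add_one _
  have hZ3 : y / 100 ≤ Z := by linarith
  have hZ4 : Z₀ ≤ Z := by
    have : (Z₀ : ℝ) < Z + 1 := by linarith
    have : Z₀ < Z + 1 := by exact_mod_cast this
    omega
  have h8 : 3587424 ^ 2 * Z ^ 8 ≤ N := by
    have h1 : (Z : ℝ) ^ 8 ≤ (y / 50) ^ 8 := pow_le_pow_left₀ (Nat.cast_nonneg _) hZ1 8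
    have h2 : (y / 50) ^ 8 = N / 39062500000000 := by rw [div_pow, hy8]; norm_num
    have h3 : (3587424 : ℝ) ^ 2 * (Z : ℝ) ^ 8 ≤ N := by
      rw [h2] at h1
      have : (3587424 : ℝ) ^ 2 * (Z : ℝ) ^ 8 ≤ 3587424 ^ 2 * (N / 39062500000000) := by gcongr
      refine this.trans ?_
      rw [mul_div_assoc', div_le_iff₀ (by norm_num)]
      nlinarith
    exact_mod_cast h3
  have h9 := hZ Z hZ4
  have h10 : ((W Z).card : ℝ) ≤ ((T N).ncard : ℝ) := by exact_mod_cast card_le h8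
  have hZpos : (0 : ℝ) < Z := by linarith
  have hlogy : Real.log (N : ℝ) = 8 * Real.log y := by
    rw [← hy8, Real.log_pow]; norm_num
  have hlogZ : Real.log y / 2 ≤ Real.log Z := by
    have e1 : Real.log (y / 100) ≤ Real.log Z := Real.log_le_log (by positivity) hZ3
    have e2 : Real.log (y / 100) = Real.log y - Real.log 100 :=
      Real.log_div (by positivity) (by norm_num)
    have e3 : Real.log 10000 ≤ Real.log y := Real.log_le_log (by norm_num) hy1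
    have e4 : Real.log 10000 = 2 * Real.log 100 := by
      rw [show (10000 : ℝ) = 100 ^ 2 by norm_num, Real.log_pow]; norm_num
    linarith
  have hlog0 : 0 ≤ Real.log y := Real.log_nonneg (by linarith)
  have h11 : y ^ 2 / 10000 ≤ (Z : ℝ) ^ 2 := by
    have : (y / 100) ^ 2 ≤ (Z : ℝ) ^ 2 := pow_le_pow_left₀ (by positivity) hZ3 2
    calc y ^ 2 / 10000 = (y / 100) ^ 2 := by ring
      _ ≤ _ := this
  calc c / 160000 * ((N : ℝ) ^ (1 / 4 : ℝ) * Real.log N) =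
      c * ((y ^ 2 / 10000) * (Real.log y / 2)) := by rw [hy4, hlogy]; ring
    _ ≤ c * ((Z : ℝ) ^ 2 * Real.log Z) := by gcongr
    _ ≤ ((W Z).card : ℝ) := h9
    _ ≤ _ := h10

end Pool.Agent.H51.M3
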