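import Pool.Agent.H51.M3.Fam
import Pool.Agent.H38.H3.Red

/-!
Every cube of the family is `G²` times a reduced cube; the map to the reduced cube is injective
on pairs of coprime pairs.
-/

set_option autoImplicit false

namespace Pool.Agent.H51.M3

open Pool.Agent.H38.H3 (sq_of)

/-- the reduced cubes of dimension 3 in the squares with `a₁ < a₂ < a₃` up to `N` -/
def T (N : ℕ) : Set (ℤ × (Fin 3 → ℤ)) :=
  {c | 0 ≤ c.1 ∧ c.1 ≤ N ∧ (∀ i, 0 < c.2 i ∧ c.2 i ≤ N) ∧ c.2 0 < c.2 1 ∧ c.2 1 < c.2 2 ∧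
    (∀ e : ℤ, e ∣ c.1 → (∀ i, e ∣ c.2 i) → IsUnit e) ∧
    ∀ I : Finset (Fin 3), IsSquare (c.1 + ∑ i ∈ I, c.2 i)}

theorem finite_T (N : ℕ) : (T N).Finite := by
  classical
  apply (Set.finite_Icc ((0 : ℤ), (fun _ => 0 : Fin 3 → ℤ)) ((N : ℤ), fun _ => (N : ℤ))).subset
  rintro ⟨a, f⟩ ⟨h1, h2, h3, -⟩
  exact ⟨⟨h1, fun i => (h3 i).1.le⟩, ⟨h2, fun i => (h3 i).2⟩⟩

theorem reduce {x y z w : ℤ} (hx : 0 < x) :
    ∃ G : ℤ, 0 < G ∧ ∃ a b d e : ℤ, x ^ 2 = G ^ 2 * a ∧ y ^ 2 = G ^ 2 * (a + b) ∧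
      z ^ 2 = G ^ 2 * (a + d) ∧ w ^ 2 = G ^ 2 * (a + e) ∧
      ∀ t : ℤ, t ∣ a → t ∣ b → t ∣ d → t ∣ e → IsUnit t := by
  obtain ⟨G, hG⟩ : ∃ G : ℕ, G = Int.gcd x (Int.gcd y (Int.gcd z w)) := ⟨_, rfl⟩
  have hG0 : 0 < G := hG ▸ Int.gcd_pos_of_ne_zero_left _ hx.ne'
  have hGx : (G : ℤ) ∣ x := hG ▸ Int.gcd_dvd_left _ _
  have hGr : (G : ℤ) ∣ (Int.gcd y (Int.gcd z w) : ℤ) := hG ▸ Int.gcd_dvd_right _ _
  have hGy : (G : ℤ) ∣ y := hGr.trans (Int.gcd_dvd_left _ _)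
  have hGr' : (G : ℤ) ∣ (Int.gcd z w : ℤ) := hGr.trans (Int.gcd_dvd_right _ _)
  have hGz : (G : ℤ) ∣ z := hGr'.trans (Int.gcd_dvd_left _ _)
  have hGw : (G : ℤ) ∣ w := hGr'.trans (Int.gcd_dvd_right _ _)
  obtain ⟨x', hx'⟩ := hGx
  obtain ⟨y', hy'⟩ := hGy
  obtain ⟨z', hz'⟩ := hGz
  obtain ⟨w', hw'⟩ := hGw
  refine ⟨G, by exact_mod_cast hG0, x' ^ 2, y' ^ 2 - x' ^ 2, z' ^ 2 - x' ^ 2, w' ^ 2 - x' ^ 2,
    by rw [hx']; ring, by rw [hy']; ring, by rw [hz']; ring, by rw [hw']; ring, ?_⟩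
  intro e ha hb hd he
  by_contra hu
  have hna : e.natAbs ≠ 1 := fun h => hu (Int.isUnit_iff_natAbs_eq.2 h)
  obtain ⟨p, hp, hpe⟩ := Nat.exists_prime_and_dvd hna
  have hpe' : (p : ℤ) ∣ e := Int.natCast_dvd.2 hpe
  have hpp : Prime (p : ℤ) := Nat.prime_iff_prime_int.1 hp
  have p1 : (p : ℤ) ∣ x' := hpp.dvd_of_dvd_pow (hpe'.trans ha)
  have aux : ∀ v : ℤ, e ∣ v ^ 2 - x' ^ 2 → (p : ℤ) ∣ v := by
    intro v hv
    have h : (p : ℤ) ∣ (v ^ 2 - x' ^ 2) + x' ^ 2 := dvd_add (hpe'.trans hv) (hpe'.trans ha)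
    rw [sub_add_cancel] at h
    exact hpp.dvd_of_dvd_pow h
  have p2 := aux y' hb
  have p3 := aux z' hd
  have p4 := aux w' he
  have q1 : (G : ℤ) * p ∣ x := hx' ▸ mul_dvd_mul_left _ p1
  have q2 : (G : ℤ) * p ∣ y := hy' ▸ mul_dvd_mul_left _ p2
  have q3 : (G : ℤ) * p ∣ z := hz' ▸ mul_dvd_mul_left _ p3
  have q4 : (G : ℤ) * p ∣ w := hw' ▸ mul_dvd_mul_left _ p4
  have q5 : (G : ℤ) * p ∣ (Int.gcd z w : ℤ) := Int.dvd_coe_gcd q3 q4
  have q6 : (G : ℤ) * p ∣ (Int.gcd y (Int.gcd z w) : ℤ) := Int.dvd_coe_gcd q2 q5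
  have q7 : (G : ℤ) * p ∣ (Int.gcd x (Int.gcd y (Int.gcd z w)) : ℤ) := Int.dvd_coe_gcd q1 q6
  rw [← hG] at q7
  have q8 : G * p ∣ G := by exact_mod_cast q7
  have q9 : G * p ≤ G := Nat.le_of_dvd hG0 q8
  have q10 : 2 ≤ p := hp.two_le
  nlinarith

/-- what the reduced cube remembers -/
def Rel (G : ℤ) (a b c d : ℤ) (q : ℤ × (Fin 3 → ℤ)) : Prop :=
  X0 a b c d ^ 2 = G ^ 2 * q.1 ∧ X1 a b c d ^ 2 = G ^ 2 * (q.1 + q.2 0) ∧
  X2 a b c d ^ 2 = G ^ 2 * (q.1 + q.2 1) ∧ X5 a b c d ^ 2 = G ^ 2 * (q.1 + q.2 0 + q.2 2) ∧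
  X6 a b c d ^ 2 = G ^ 2 * (q.1 + q.2 1 + q.2 2) ∧
  X7 a b c d ^ 2 = G ^ 2 * (q.1 + q.2 0 + q.2 1 + q.2 2)

theorem exists_cube {N : ℕ} {a b c d : ℤ} (ha : 0 < a) (hb : 0 < b) (hc : 0 < c) (hd : 0 < d)
    (hN : X7 a b c d ^ 2 ≤ N) :
    ∃ q : ℤ × (Fin 3 → ℤ), q ∈ T N ∧ ∃ G : ℤ, 0 < G ∧ Rel G a b c d q := by
  have h0 := pos0 ha hb hc hd
  have h01 := lt01 ha hb hc hd
  have h12 := lt12 ha hb hc hd
  have h24 := lt24 ha hb hc hd
  obtain ⟨G, hG, x, y, z, w, g0, g1, g2, g4, hred⟩ :=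
    reduce (y := X1 a b c d) (z := X2 a b c d) (w := X4 a b c d) h0
  have hG2 : 0 < G ^ 2 := by positivity
  have hG1 : 1 ≤ G ^ 2 := hG2
  have i3 := e3 a b c d
  have i5 := e5 a b c d
  have i6 := e6 a b c d
  have i7 := e7 a b c d
  have g3 : X3 a b c d ^ 2 = G ^ 2 * (x + y + z) := by
    have : X3 a b c d ^ 2 = X1 a b c d ^ 2 + X2 a b c d ^ 2 - X0 a b c d ^ 2 := by linarith
    rw [this, g0, g1, g2]; ring
  have g5 : X5 a b c d ^ 2 = G ^ 2 * (x + y + w) := by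
    have : X5 a b c d ^ 2 = X1 a b c d ^ 2 + X4 a b c d ^ 2 - X0 a b c d ^ 2 := by linarith
    rw [this, g0, g1, g4]; ring
  have g6 : X6 a b c d ^ 2 = G ^ 2 * (x + z + w) := by
    have : X6 a b c d ^ 2 = X2 a b c d ^ 2 + X4 a b c d ^ 2 - X0 a b c d ^ 2 := by linarith
    rw [this, g0, g2, g4]; ring
  have g7 : X7 a b c d ^ 2 = G ^ 2 * (x + y + z + w) := by
    have : X7 a b c d ^ 2 = X1 a b c d ^ 2 + X6 a b c d ^ 2 - X0 a b c d ^ 2 := by linarith
    rw [this, g0, g1, g6]; ring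
  have hx : 0 < x := by
    have : 0 < G ^ 2 * x := g0 ▸ (by positivity)
    exact (mul_pos_iff_of_pos_left hG2).1 this
  have s01 : X0 a b c d ^ 2 < X1 a b c d ^ 2 := pow_lt_pow_left₀ h01 h0.le (by norm_num)
  have s12 : X1 a b c d ^ 2 < X2 a b c d ^ 2 :=
    pow_lt_pow_left₀ h12 (h0.trans h01).le (by norm_num)
  have s24 : X2 a b c d ^ 2 < X4 a b c d ^ 2 :=
    pow_lt_pow_left₀ h24 (h0.trans (h01.trans h12)).le (by norm_num)
  rw [g0, g1] at s01
  rw [g1, g2] at s12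
  rw [g2, g4] at s24
  have hy : 0 < y := by
    have := lt_of_mul_lt_mul_left s01 hG2.le
    linarith
  have hyz : y < z := by
    have := lt_of_mul_lt_mul_left s12 hG2.le
    linarith
  have hzw : z < w := by
    have := lt_of_mul_lt_mul_left s24 hG2.le
    linarith
  have htot : x + y + z + w ≤ N := by
    have t4 : x + y + z + w ≤ G ^ 2 * (x + y + z + w) :=
      le_mul_of_one_le_left (by linarith) hG1
    rw [← g7] at t4
    linarith
  refine ⟨(x, ![y, z, w]), ⟨hx.le, by simp only; linarith, ?_, ?_, ?_, ?_, ?_⟩, G, hG,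
    g0, by simpa using g1, by simpa using g2, by simpa using g5, by simpa using g6,
    by simpa using g7⟩
  · intro i
    fin_cases i <;> simp <;> constructor <;> linarith
  · simpa using hyz
  · simpa using hzw
  · intro e h0 hi
    exact hred e h0 (by simpa using hi 0) (by simpa using hi 1) (by simpa using hi 2)
  · intro I
    have hs : ∑ i ∈ I, (![y, z, w] : Fin 3 → ℤ) i = (if (0 : Fin 3) ∈ I then y else 0)
        + (if (1 : Fin 3) ∈ I then z else 0) + (if (2 : Fin 3) ∈ I then w else 0) := by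
      have := Finset.sum_ite_mem Finset.univ I (![y, z, w] : Fin 3 → ℤ)
      rw [Finset.univ_inter] at this
      rw [← this, Fin.sum_univ_three]
      simp
    have f0 : IsSquare x := sq_of hG g0
    have f1 : IsSquare (x + y) := sq_of hG g1
    have f2 : IsSquare (x + z) := sq_of hG g2
    have f3 : IsSquare (x + y + z) := sq_of hG g3
    have f4 : IsSquare (x + w) := sq_of hG g4
    have f5 : IsSquare (x + y + w) := sq_of hG g5
    have f6 : IsSquare (x + z + w) := sq_of hG g6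
    have f7 : IsSquare (x + y + z + w) := sq_of hG g7
    simp only
    rw [hs]
    split_ifs
    · convert f7 using 1; ring
    · convert f3 using 1; ring
    · convert f5 using 1; ring
    · convert f1 using 1; ring
    · convert f6 using 1; ring
    · convert f2 using 1; ring
    · convert f4 using 1; ring
    · convert f0 using 1; ring

theorem scale {x x' G G' v : ℤ} (hx : 0 < x) (hx' : 0 < x') (hG : 0 < G) (hG' : 0 < G')
    (h : x ^ 2 = G ^ 2 * v) (h' : x' ^ 2 = G' ^ 2 * v) : G' * x = G * x' := by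
  have hsq : (G' * x) ^ 2 = (G * x') ^ 2 := by
    rw [mul_pow, mul_pow, h, h']; ring
  exact (pow_left_inj₀ (by positivity) (by positivity) (by norm_num)).1 hsq

theorem inj {G G' a b c d a' b' c' d' : ℤ} {q : ℤ × (Fin 3 → ℤ)} (ha : 0 < a) (hb : 0 < b)
    (hc : 0 < c) (hd : 0 < d) (ha' : 0 < a') (hb' : 0 < b') (hc' : 0 < c') (hd' : 0 < d')
    (hG : 0 < G) (hG' : 0 < G') (h : Rel G a b c d q) (h' : Rel G' a' b' c' d' q) :
    a * b' = a' * b ∧ c * d' = c' * d := by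
  obtain ⟨g0, g1, g2, g5, g6, g7⟩ := h
  obtain ⟨g0', g1', g2', g5', g6', g7'⟩ := h'
  have p0 := pos0 ha hb hc hd
  have p0' := pos0 ha' hb' hc' hd'
  have p01 := lt01 ha hb hc hd
  have p01' := lt01 ha' hb' hc' hd'
  have p12 := lt12 ha hb hc hd
  have p12' := lt12 ha' hb' hc' hd'
  have p5 := pos5 ha hb hc hd
  have p5' := pos5 ha' hb' hc' hd'
  have p6 := pos6 ha hb hc hd
  have p6' := pos6 ha' hb' hc' hd'
  have p57 := lt57 ha hb hc hd
  have p57' := lt57 ha' hb' hc' hd'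
  have r0 := scale p0 p0' hG hG' g0 g0'
  have r1 := scale (p0.trans p01) (p0'.trans p01') hG hG' g1 g1'
  have r2 := scale ((p0.trans p01).trans p12) ((p0'.trans p01').trans p12') hG hG' g2 g2'
  have r5 := scale p5 p5' hG hG' g5 g5'
  have r6 := scale p6 p6' hG hG' g6 g6'
  have r7 := scale (p5.trans p57) (p5'.trans p57') hG hG' g7 g7'
  have E := Es a b c d
  have E' := Es a' b' c' d'
  have U := Eu a b c d
  have U' := Eu a' b' c' d'
  constructor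
  · obtain ⟨V, hV⟩ : ∃ V, V = G' * (X5 a b c d + X1 a b c d) := ⟨_, rfl⟩
    obtain ⟨W, hW⟩ : ∃ W, W = G' * (X6 a b c d + X2 a b c d) := ⟨_, rfl⟩
    have hV' : V = G * (X5 a' b' c' d' + X1 a' b' c' d') := by
      rw [hV, mul_add, r5, r1]; ring
    have hW' : W = G * (X6 a' b' c' d' + X2 a' b' c' d') := by
      rw [hW, mul_add, r6, r2]; ring
    have hVp : 0 < V := by
      rw [hV]; exact mul_pos hG' (by linarith)
    have hWp : 0 < W := by
      rw [hW]; exact mul_pos hG' (by linarith)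
    have k1 : (a + 3 * b) * V = (a + 2 * b) * W := by
      rw [hV, hW]
      linear_combination G' * E
    have k2 : (a' + 3 * b') * V = (a' + 2 * b') * W := by
      rw [hV', hW']
      linear_combination G * E'
    have k3 : ((a + 3 * b) * (a' + 2 * b') - (a + 2 * b) * (a' + 3 * b')) * (V * W) = 0 := by
      linear_combination (a' + 2 * b') * W * k1 - (a + 2 * b) * W * k2
    have k4 := (mul_eq_zero.1 k3).resolve_right (mul_pos hVp hWp).ne'
    linear_combination -k4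
  · obtain ⟨V, hV⟩ : ∃ V, V = G' * (X2 a b c d - X0 a b c d) := ⟨_, rfl⟩
    obtain ⟨W, hW⟩ : ∃ W, W = G' * (X7 a b c d - X5 a b c d) := ⟨_, rfl⟩
    have hV' : V = G * (X2 a' b' c' d' - X0 a' b' c' d') := by
      rw [hV, mul_sub, r2, r0]; ring
    have hW' : W = G * (X7 a' b' c' d' - X5 a' b' c' d') := by
      rw [hW, mul_sub, r7, r5]; ring
    have hVp : 0 < V := by
      rw [hV]; exact mul_pos hG' (by linarith)
    have hWp : 0 < W := by
      rw [hW]; exact mul_pos hG' (by linarith)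
    have k1 : (c + 2 * d) * V = (2 * c + 3 * d) * W := by
      rw [hV, hW]
      linear_combination G' * U
    have k2 : (c' + 2 * d') * V = (2 * c' + 3 * d') * W := by
      rw [hV', hW']
      linear_combination G * U'
    have k3 : ((c + 2 * d) * (2 * c' + 3 * d') - (2 * c + 3 * d) * (c' + 2 * d')) * (V * W) = 0 := by
      linear_combination (2 * c' + 3 * d') * W * k1 - (2 * c + 3 * d) * W * k2
    have k4 := (mul_eq_zero.1 k3).resolve_right (mul_pos hVp hWp).ne'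
    linear_combination -k4

end Pool.Agent.H51.M3
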